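import Pool.Agent.H95.FJ.Defs

set_option autoImplicit false

namespace H17.FJ
open H95.FJ H95.FG H95.FI

theorem finrank_iSup_le {V : Type} [AddCommGroup V] [Module ℂ V] [FiniteDimensional ℂ V] (ρ : ℕ) :
    ∀ (j : ℕ) (R : Fin j → Submodule ℂ V), (∀ i, Module.finrank ℂ (R i) ≤ ρ) →
    Module.finrank ℂ ↥(⨆ i, R i) ≤ j * ρ := by
  intro j
  induction j with
  | zero =>
    intro R _
    rw [iSup_of_empty]; simp
  | succ j ih =>
    intro R hR
    have e : (⨆ i, R i) = R 0 ⊔ ⨆ i : Fin j, R i.succ := by
      apply le_antisymm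
      · apply iSup_le
        intro i
        refine Fin.cases ?_ (fun i => ?_) i
        · exact le_sup_left
        · exact le_sup_of_le_right (le_iSup (fun i : Fin j => R i.succ) i)
      · exact sup_le (le_iSup R 0) (iSup_le fun i => le_iSup R i.succ)
    rw [e]
    have h1 := Submodule.finrank_add_le_finrank_add_finrank (R 0) (⨆ i : Fin j, R i.succ)
    have h2 := ih (fun i => R i.succ) (fun i => hR i.succ)
    have h3 := hR 0
    have : (j + 1) * ρ = ρ + j * ρ := by ring
    omega

theorem t_GRE (hSEML : S_SEML) : S_GRE := by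
  classical
  intro n ρ q K I X hrk hno
  let P : ℕ → Prop := fun j => ∃ (T : Fin j → (Vn n →ₗ[ℂ] Vn n)), (∀ i, T i ∈ X) ∧
    ∃ w ∈ K, LinearIndependent ℂ (fun i => I.mkQ (T i w))
  have hP0 : P 0 := ⟨fun i => i.elim0, fun i => i.elim0, 0, K.zero_mem,
    linearIndependent_empty_type⟩
  have hPq : ∃ m, ¬ P m := ⟨q + 1, by
    rintro ⟨T, hT, w, hw, hli⟩
    exact hno T hT w hw hli⟩
  set m := Nat.find hPq with hm
  have hm1 : ¬ P m := Nat.find_spec hPq
  have hm0 : m ≠ 0 := by
    intro h
    rw [h] at hm1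
    exact hm1 hP0
  have hmq : m ≤ q + 1 := Nat.find_min' hPq (by
    rintro ⟨T, hT, w, hw, hli⟩
    exact hno T hT w hw hli)
  obtain ⟨j, hj⟩ : ∃ j, m = j + 1 := ⟨m - 1, by omega⟩
  have hPj : P j := by
    by_contra hcon
    have := Nat.find_min' hPq hcon
    omega
  rw [hj] at hm1
  obtain ⟨T, hT, w, hw, hli⟩ := hPj
  refine ⟨I ⊔ ⨆ i, LinearMap.range (T i), ?_, le_sup_left, ?_⟩
  · have h1 := Submodule.finrank_add_le_finrank_add_finrank I (⨆ i, LinearMap.range (T i))
    have h2 := finrank_iSup_le ρ j (fun i => LinearMap.range (T i)) (fun i => hrk _ (hT i))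
    have h3 : j * ρ ≤ q * ρ := Nat.mul_le_mul_right _ (by omega)
    omega
  · intro T' hT' w' hw'
    have hfin := hSEML n j T I w w' hli
    have key : ∀ t : ℂ, t ∉ {t : ℂ | ¬ LinearIndependent ℂ (fun i => I.mkQ (T i (w + t • (w' - w))))} →
        T' (w + t • (w' - w)) ∈ I ⊔ ⨆ i, LinearMap.range (T i) := by
      intro t ht
      have ht' : LinearIndependent ℂ (fun i => I.mkQ (T i (w + t • (w' - w)))) := by
        by_contra hcon
        exact ht hcon
      have hwt : w + t • (w' - w) ∈ K := K.add_mem hw (K.smul_mem _ (K.sub_mem hw' hw))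
      have hspan : I.mkQ (T' (w + t • (w' - w))) ∈
          Submodule.span ℂ (Set.range (fun i => I.mkQ (T i (w + t • (w' - w))))) := by
        by_contra hcon
        apply hm1
        refine ⟨Fin.cons T' T, ?_, w + t • (w' - w), hwt, ?_⟩
        · intro i
          refine Fin.cases ?_ (fun i => ?_) i
          · exact hT'
          · exact hT i
        · have e : (fun i : Fin (j + 1) => I.mkQ ((Fin.cons T' T : Fin (j + 1) → (Vn n →ₗ[ℂ] Vn n)) i
              (w + t • (w' - w)))) =
              Fin.cons (I.mkQ (T' (w + t • (w' - w)))) (fun i => I.mkQ (T i (w + t • (w' - w)))) := by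
            funext i
            refine Fin.cases ?_ (fun i => ?_) i
            · rfl
            · rfl
          rw [e, linearIndependent_finCons]
          exact ⟨ht', hcon⟩
      have hr : Set.range (fun i => I.mkQ (T i (w + t • (w' - w)))) =
          I.mkQ '' Set.range (fun i => T i (w + t • (w' - w))) := by
        rw [← Set.range_comp]; rfl
      rw [hr, Submodule.span_image, Submodule.mem_map] at hspan
      obtain ⟨y, hy, hyeq⟩ := hspan
      have hy2 : y ∈ ⨆ i, LinearMap.range (T i) := by
        refine (Submodule.span_le.mpr ?_) hy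
        rintro _ ⟨i, rfl⟩
        exact (le_iSup (fun i => LinearMap.range (T i)) i) ⟨_, rfl⟩
      have hdiff : T' (w + t • (w' - w)) - y ∈ I := by
        rw [← Submodule.ker_mkQ I, LinearMap.mem_ker, map_sub, hyeq, sub_self]
      have : T' (w + t • (w' - w)) = (T' (w + t • (w' - w)) - y) + y := by abel
      rw [this]
      exact Submodule.add_mem_sup hdiff hy2
    obtain ⟨t1, ht1⟩ := hfin.exists_notMem
    obtain ⟨t2, ht2⟩ := (hfin.union (Set.finite_singleton t1)).exists_notMem
    have ht2' : t2 ∉ {t : ℂ | ¬ LinearIndependent ℂ (fun i => I.mkQ (T i (w + t • (w' - w))))} :=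
      fun h => ht2 (Or.inl h)
    have hne : t2 ≠ t1 := fun h => ht2 (Or.inr (by simp [h]))
    have k1 := key t1 ht1
    have k2 := key t2 ht2'
    rw [map_add, map_smul] at k1 k2
    set J := I ⊔ ⨆ i, LinearMap.range (T i) with hJ
    have hd : (t2 - t1) • T' (w' - w) ∈ J := by
      have := J.sub_mem k2 k1
      rw [show T' w + t2 • T' (w' - w) - (T' w + t1 • T' (w' - w)) = (t2 - t1) • T' (w' - w) by
        rw [sub_smul]; abel] at this
      exact this
    have hd' : T' (w' - w) ∈ J := by
      have h0 : t2 - t1 ≠ 0 := sub_ne_zero.mpr hne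
      have := J.smul_mem (t2 - t1)⁻¹ hd
      rwa [smul_smul, inv_mul_cancel₀ h0, one_smul] at this
    have hTw : T' w ∈ J := by
      have := J.sub_mem k1 (J.smul_mem t1 hd')
      rwa [add_sub_cancel_right] at this
    have : T' w' = T' w + T' (w' - w) := by rw [← map_add]; congr 1; abel
    rw [this]
    exact J.add_mem hTw hd'

end H17.FJ
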